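import Pool.Agent.Unc.Main

/-!
# Covering number of the sum of convex bodies over a simplicial complex
-/

set_option autoImplicit false

namespace Pool.Agent.Results.MP_eba1ef_gt.ComplexSums

open Set

/-- `K` is covered by at most `N` translates of its interior, that is, `c(K) ≤ N`. -/
def CoveredBy {E : Type*} [NormedAddCommGroup E] (K : Set E) (N : ℕ) : Prop :=
  ∃ T : Finset E, T.card ≤ N ∧ K ⊆ ⋃ t ∈ T, (fun x => t + x) '' interior K

/-- The sum of the bodies `B i` over the family `FF` of finite sets of indices: the convex hull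
of all points `x` for which there is a set `F` of the family with `x i ∈ B i` for `i ∈ F` and
`x i = 0` for `i ∉ F`. -/
def ComplexSum {ι : Type*} {E : ι → Type*} [∀ i, NormedAddCommGroup (E i)]
    [∀ i, NormedSpace ℝ (E i)] (FF : Set (Finset ι)) (B : ∀ i, Set (E i)) : Set (∀ i, E i) :=
  convexHull ℝ {x | ∃ F ∈ FF, (∀ i ∈ F, x i ∈ B i) ∧ ∀ i, i ∉ F → x i = 0}

/-- Let `E i` (`i` in a finite nonempty set `ι`) be finite-dimensional real normed spaces and
`B i` a convex body in `E i` with `0` in its interior which is covered by `N i ≥ 2` translates of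
its interior.  Let `FF` be any family of subsets of `ι` whose union is `ι`.  Then the image `K` in
`ℝ^d` of the sum of the bodies `B i` over the family `FF` under any affine isomorphism is a convex
body which is covered by at most `∏ i, N i` translates of its interior. -/
theorem result {d : ℕ} {ι : Type*} [Fintype ι] [Nonempty ι] {E : ι → Type*}
    [∀ i, NormedAddCommGroup (E i)] [∀ i, NormedSpace ℝ (E i)]
    [∀ i, FiniteDimensional ℝ (E i)] (B : ∀ i, Set (E i))
    (hconv : ∀ i, Convex ℝ (B i)) (hcomp : ∀ i, IsCompact (B i))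
    (h0 : ∀ i, (0 : E i) ∈ interior (B i)) (N : ι → ℕ) (hN : ∀ i, 2 ≤ N i)
    (hB : ∀ i, CoveredBy (B i) (N i))
    (FF : Set (Finset ι)) (hFF : ∀ i, ∃ F ∈ FF, i ∈ F)
    (e : (∀ i, E i) ≃ᵃ[ℝ] EuclideanSpace ℝ (Fin d)) (K : Set (EuclideanSpace ℝ (Fin d)))
    (hK : K = e '' ComplexSum FF B) :
    Convex ℝ K ∧ IsCompact K ∧ (interior K).Nonempty ∧ CoveredBy K (∏ i, N i) := by
  classical
  let _ : LinearOrder ι := linearOrderOfSTO (WellOrderingRel (α := ι))
  set C : Set (∀ i, E i) := ComplexSum FF B with hC
  have hCeq : C = convexHull ℝ (Unc.gen FF B) := rfl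
  have hcov : Unc.CovBy C (∏ i, N i) := by
    have h := Unc.cover_main (FF := FF) (B := B) hconv hcomp h0 hFF (fun i => N i - 1)
      (fun i => by have := hN i; omega)
      (fun i => by
        have := hN i
        have h2 : N i - 1 + 1 = N i := by omega
        rw [h2]; exact hB i)
    have h3 : ∏ i, (N i - 1 + 1) = ∏ i, N i :=
      Finset.prod_congr rfl fun i _ => by have := hN i; omega
    rw [h3] at h
    exact h
  have hCc : IsCompact C := Unc.isCompact_hull_gen hconv hcomp
  have hCi : (interior C).Nonempty := Unc.interior_nonempty h0 hFF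
  have hCv : Convex ℝ C := convex_convexHull ℝ _
  set φ : (∀ i, E i) ≃ₜ EuclideanSpace ℝ (Fin d) := e.toHomeomorphOfFiniteDimensional with hφ
  have hφe : ∀ x, φ x = e x := fun x => by
    rw [hφ, AffineEquiv.coe_toHomeomorphOfFiniteDimensional]
  have hKφ : K = φ '' C := by
    rw [hK]
    exact Set.image_congr fun x _ => (hφe x).symm
  have hint : interior K = φ '' interior C := by rw [hKφ, φ.image_interior]
  refine ⟨?_, ?_, ?_, ?_⟩
  · rw [hK]
    exact hCv.affine_image e.toAffineMap
  · rw [hKφ]; exact hCc.image φ.continuous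
  · rw [hint]; exact hCi.image φ
  · obtain ⟨T, hT, hTc⟩ := hcov
    refine ⟨T.image e.linear, Finset.card_image_le.trans hT, ?_⟩
    intro y hy
    rw [hK] at hy
    obtain ⟨x, hx, rfl⟩ := hy
    have h1 := hTc hx
    simp only [mem_iUnion] at h1
    obtain ⟨t, ht, z, hz, hz2⟩ := h1
    simp only [mem_iUnion]
    refine ⟨e.linear t, Finset.mem_image_of_mem _ ht, e z, ?_, ?_⟩
    · rw [hint]
      exact ⟨z, hz, hφe z⟩
    · have h4 : t + z = x := hz2
      have h5 := e.map_vadd z t
      simp only [vadd_eq_add] at h5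
      rw [← h4]
      exact h5.symm

end Pool.Agent.Results.MP_eba1ef_gt.ComplexSums
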