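import Mathlib
import Pool.Agent.FracH.Frac

/-!
# The fractional form of Hadwiger's covering conjecture, in all dimensions
-/

set_option autoImplicit false

open Set

namespace Pool.Agent.Variants.MP_eba1ef_gt.FractionalHadwiger

/-- The translates `t j + interior K`, taken with the weights `w j ≥ 0`, cover every point of `K`
with total weight at least one. -/
def FracCover {d : ℕ} (K : Set (EuclideanSpace ℝ (Fin d))) {N : ℕ}
    (t : Fin N → EuclideanSpace ℝ (Fin d)) (w : Fin N → ℝ) : Prop :=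
  (∀ j, 0 ≤ w j) ∧
    ∀ x ∈ K, 1 ≤ ∑ j, ((fun y => t j + y) '' interior K).indicator (fun _ => w j) x

/-- For every `d`, the supremum over all convex bodies `K` in `ℝ ^ d` of the fractional covering
number of `K` by translates of its interior is exactly `2 ^ d`. -/
theorem result (d : ℕ) :
    (∀ K : Set (EuclideanSpace ℝ (Fin d)),
      Convex ℝ K → IsCompact K → (interior K).Nonempty →
      ∀ ε : ℝ, 0 < ε → ∃ (N : ℕ) (t : Fin N → EuclideanSpace ℝ (Fin d)) (w : Fin N → ℝ),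
        FracCover K t w ∧ ∑ j, w j ≤ 2 ^ d + ε) ∧
    (∃ K : Set (EuclideanSpace ℝ (Fin d)),
      Convex ℝ K ∧ IsCompact K ∧ (interior K).Nonempty ∧
      ∀ (N : ℕ) (t : Fin N → EuclideanSpace ℝ (Fin d)) (w : Fin N → ℝ),
        FracCover K t w → 2 ^ d ≤ ∑ j, w j) := by
  refine ⟨fun K hK hc hne ε hε => ?_, ?_⟩
  · have hcont : ContinuousAt (fun ρ : ℝ => ((1 + ρ) / ρ) ^ d) 1 := by
      refine ContinuousAt.pow ?_ d
      exact (continuousAt_const.add continuousAt_id).div continuousAt_id one_ne_zero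
    have h1 : ∀ᶠ ρ in nhds (1 : ℝ), ((1 + ρ) / ρ) ^ d < 2 ^ d + ε := by
      refine hcont.eventually_lt continuousAt_const ?_
      norm_num
      exact hε
    have h2 : ∀ᶠ ρ in nhdsWithin (1 : ℝ) (Iio 1), ((1 + ρ) / ρ) ^ d < 2 ^ d + ε :=
      h1.filter_mono nhdsWithin_le_nhds
    have h3 : ∀ᶠ ρ in nhdsWithin (1 : ℝ) (Iio 1), 0 < ρ :=
      (lt_mem_nhds (zero_lt_one : (0 : ℝ) < 1)).filter_mono nhdsWithin_le_nhds
    have h4 : ∀ᶠ ρ in nhdsWithin (1 : ℝ) (Iio 1), ρ < 1 := self_mem_nhdsWithin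
    obtain ⟨ρ, hρ1, hρ2, hρ3⟩ := (h2.and (h3.and h4)).exists
    obtain ⟨N, t, w, hw, hsum, hcov⟩ := Pool.Agent.FracH.frac hK hc hne hρ2 hρ3
    refine ⟨N, t, w, ⟨hw, hcov⟩, ?_⟩
    rw [show Module.finrank ℝ (EuclideanSpace ℝ (Fin d)) = d by simp] at hsum
    linarith
  · refine ⟨Pool.Agent.FracH.cube d, Pool.Agent.FracH.cube_convex d,
      Pool.Agent.FracH.cube_compact d, ?_, fun N t w h =>
        Pool.Agent.FracH.cube_lower d N t w h.1 h.2⟩
    rw [Pool.Agent.FracH.cube_interior]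
    refine ⟨(EuclideanSpace.equiv (Fin d) ℝ).symm (fun _ => 1 / 2), fun i => ?_⟩
    simp
    norm_num

end Pool.Agent.Variants.MP_eba1ef_gt.FractionalHadwiger
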