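import Mathlib
import Pool.Agent.HRL.TOPL
import Pool.Agent.HRL.EN
import Pool.Agent.HRL.TR
import Pool.Agent.HRL.PR
import Pool.Agent.HRL.SE
import Pool.Agent.HRL.FL
import Pool.Agent.HRL.LN
import Pool.Agent.HRL.AV
import Pool.Agent.HRL.NU
import Pool.Agent.HRP.GRD

/-!
# Hadwiger's covering problem for general convex bodies with small random signed sums
-/

set_option autoImplicit false

open MeasureTheory Set
open scoped Pointwise

namespace Pool.Agent.Variants.MP_eba1ef_gt.GeneralBodies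

/-- Let `K` be any convex body in `ℝ ^ d` (no symmetry is assumed) and let `L = -L` be a convex body
with `L ⊆ K ⊆ D L`.  Let `N ≥ 1` and `Θ ≥ 1` satisfy `34 · 4 ^ N log (500 N Θ D) ≤ N d`.  Suppose
that the `N`-tuples `w` of points of `K` for which the average over all signs of the norm (with
unit ball `L`) of `± w_1 ± ... ± w_N` exceeds `N / 10` fill at most the proportion
`1 / (80 D (320 N D Θ) ^ N)` of `K ^ N`.  Then `K` is covered by at most
`1 + (e 2 ^ d / Θ) d log (4 d D + 1)` translates of its interior. -/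
theorem result (d N : ℕ) (hd : 2 ≤ d) (hN : 1 ≤ N) (Θ D : ℝ) (hΘ : 1 ≤ Θ) (hD : 1 ≤ D)
    (hcond : 34 * 4 ^ N * Real.log (500 * N * Θ * D) ≤ N * d)
    (K L : Set (EuclideanSpace ℝ (Fin d))) (hK : Convex ℝ K) (hc : IsCompact K)
    (hL : Convex ℝ L) (hLc : IsCompact L) (hLi : (interior L).Nonempty)
    (hLs : ∀ x ∈ L, -x ∈ L) (hLK : L ⊆ K) (hKD : K ⊆ D • L)
    (hA : volume.real {w : Fin N → EuclideanSpace ℝ (Fin d) | (∀ i, w i ∈ K) ∧
        1 / 10 * (N : ℝ) <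
          (∑ s : Fin N → Bool, gauge L (∑ j, (if s j then (1 : ℝ) else -1) • w j)) / 2 ^ N} ≤
      1 / (80 * D * (320 * N * D * Θ) ^ N) * volume.real K ^ N) :
    ∃ T : Finset (EuclideanSpace ℝ (Fin d)),
      (T.card : ℝ) ≤ 1 + Real.exp 1 * 2 ^ d / Θ * (d * Real.log (4 * d * D + 1)) ∧
      K ⊆ ⋃ t ∈ T, (fun x => t + x) '' interior K :=
  Pool.Agent.HRL.p_TOPL Pool.Agent.HRL.p_EN Pool.Agent.HRL.p_TR Pool.Agent.HRL.p_PR
    Pool.Agent.HRL.p_SE Pool.Agent.HRL.p_FL Pool.Agent.HRL.p_LN Pool.Agent.HRL.p_AV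
    Pool.Agent.HRL.p_NU Pool.Agent.HRP.p_GRD d N Θ D K L hd hN hΘ hD hcond ⟨hLc, hL, hLi, hLs⟩
    hK hc hLK hKD hA

end Pool.Agent.Variants.MP_eba1ef_gt.GeneralBodies
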