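import Mathlib
import Pool.Agent.Rog.Main

/-!
# Covering by `O(d 2 ^ d)` translates of the interior
-/

set_option autoImplicit false

open MeasureTheory Set

namespace Pool.Agent.Variants.MP_eba1ef_gt.LinearFactor

/-- Let `K` be a convex body in `ℝ ^ d` and let `c` be any point for which `K` and its reflection
`2 c - K` in `c` meet in a set of positive volume `v`.  Then `K` is covered by at most
`2 ^ d * d * (200 + 4 log (2 + log (|K| / v)))` translates of its interior.  If `K` is centrally
symmetric and `c` is its centre, then `v = |K|` and the bound is at most `203 * d * 2 ^ d`. -/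
theorem result (d : ℕ) (hd : 1 ≤ d) (K : Set (EuclideanSpace ℝ (Fin d)))
    (c : EuclideanSpace ℝ (Fin d)) (hK : Convex ℝ K) (hc : IsCompact K)
    (hne : (interior K).Nonempty)
    (hv : 0 < volume.real (K ∩ ((fun y => (2 : ℝ) • c - y) '' K))) :
    ∃ T : Finset (EuclideanSpace ℝ (Fin d)),
      (T.card : ℝ) ≤ 2 ^ d * d * (200 + 4 * Real.log (2 + Real.log (volume.real K /
        volume.real (K ∩ ((fun y => (2 : ℝ) • c - y) '' K))))) ∧
      K ⊆ ⋃ t ∈ T, (fun x => t + x) '' interior K :=
  Pool.Agent.Rog.t_ALL d K c hd hc hK hne hv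

end Pool.Agent.Variants.MP_eba1ef_gt.LinearFactor
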