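import Mathlib
import Pool.Agent.HRP.TOP
import Pool.Agent.HRP.CHN
import Pool.Agent.HRP.BAD
import Pool.Agent.HRP.PRD
import Pool.Agent.HRP.FUN
import Pool.Agent.HRP.NUM
import Pool.Agent.HRP.GRD
import Pool.Agent.HRP.CPT

/-!
# Hadwiger's covering problem and random points of a centrally symmetric body
-/

set_option autoImplicit false

open MeasureTheory Set

namespace Pool.Agent.Variants.MP_eba1ef_gt.RandomPoints

/-- Let `K = -K` be a convex body in `ℝ ^ d` with norm `gauge K`, and let `d ≥ 2`, `k ≥ 2`, `m ≥ 1`,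
`Θ ≥ 1` satisfy `2 ^ (k m) (1 + k log (2 Θ)) ≤ d`.  If the `m`-tuples `w` of points of `K` with
`‖± w_1 ± ... ± w_m‖ ≥ (1 - 4 / 2 ^ k) m` for all signs fill at most the proportion
`1 / (4 (4 Θ ^ k) ^ m)` of `K ^ m`, then `K` is covered by at most
`1 + (e 2 ^ d / Θ) d log (4 d + 1)` translates of its interior. -/
theorem result (d k m : ℕ) (hd : 2 ≤ d) (hk : 2 ≤ k) (hm : 1 ≤ m) (Θ : ℝ) (hΘ : 1 ≤ Θ)
    (hN : 2 ^ (k * m) * (1 + k * Real.log (2 * Θ)) ≤ d)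
    (K : Set (EuclideanSpace ℝ (Fin d))) (hK : Convex ℝ K) (hc : IsCompact K)
    (hne : (interior K).Nonempty) (hs : ∀ x ∈ K, -x ∈ K)
    (hA : volume.real {w : Fin m → EuclideanSpace ℝ (Fin d) | (∀ i, w i ∈ K) ∧
        ∀ s : Fin m → ℝ, (∀ i, s i = 1 ∨ s i = -1) →
          (1 - 4 / 2 ^ k) * m ≤ gauge K (∑ i, s i • w i)} ≤
      1 / (4 * (4 * Θ ^ k) ^ m) * volume.real K ^ m) :
    ∃ T : Finset (EuclideanSpace ℝ (Fin d)),
      (T.card : ℝ) ≤ 1 + Real.exp 1 * 2 ^ d / Θ * (d * Real.log (4 * d + 1)) ∧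
      K ⊆ ⋃ t ∈ T, (fun x => t + x) '' interior K :=
  Pool.Agent.HRP.p_TOP Pool.Agent.HRP.p_CHN Pool.Agent.HRP.p_BAD Pool.Agent.HRP.p_PRD
    Pool.Agent.HRP.p_FUN Pool.Agent.HRP.p_NUM Pool.Agent.HRP.p_GRD Pool.Agent.HRP.p_CPT
    d k m Θ K hd hk hm hΘ hN ⟨hc, hK, hne, hs⟩ hA

end Pool.Agent.Variants.MP_eba1ef_gt.RandomPoints
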