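import Mathlib
import Pool.Agent.Ovl.Final

/-!
# Hadwiger's covering problem for bodies which keep much of their volume under small translations

`|A|` is the volume of `A`, and `X`, `Y` are independent random points with the uniform
distribution on the convex body `K`.
-/

set_option autoImplicit false

open MeasureTheory Set Filter
open scoped Pointwise Topology

namespace Pool.Agent.Variants.MP_eba1ef_gt.RandomTranslates

/-- Euclidean space. -/
abbrev E (d : ℕ) := EuclideanSpace ℝ (Fin d)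

/-- The volume `|K ∩ (K - v)|`. -/
noncomputable def overlap {d : ℕ} (K : Set (E d)) (v : E d) : ℝ :=
  volume.real {x | x ∈ K ∧ x + v ∈ K}

/-- The volume of the set of pairs `(x, y)` of points of `K` with `x + t y ∉ c K`; divided by
`|K| ^ 2` it is the probability of `X + t Y ∉ c K`. -/
noncomputable def exits {d : ℕ} (K : Set (E d)) (t c : ℝ) : ℝ :=
  volume.real {p : E d × E d | p.1 ∈ K ∧ p.2 ∈ K ∧ p.1 + t • p.2 ∉ c • K}

/-- The second moments of `K` are at most `σ ^ 2` in all directions. -/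
def Moments {d : ℕ} (K : Set (E d)) (σ : ℝ) : Prop :=
  ∀ θ : E d, ∫ y in K, (inner ℝ θ y) ^ 2 ≤ σ ^ 2 * ‖θ‖ ^ 2 * volume.real K

/-- (a) `K = -K` and for some `s` in `[0, 1]` the overlap of `K` and `K - s y` is at least
`d ^ 2 (1 - s / 4) ^ d |K|` for all `y ∈ K` outside a set of volume at most `|K| / d ^ 2`. -/
def SymOverlap {d : ℕ} (K : Set (E d)) : Prop :=
  (∀ x ∈ K, -x ∈ K) ∧ ∃ s : ℝ, 0 ≤ s ∧ s ≤ 1 ∧
    volume.real {y | y ∈ K ∧ overlap K (s • y) < (d : ℝ) ^ 2 * (1 - s / 4) ^ d * volume.real K} *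
      (d : ℝ) ^ 2 ≤ volume.real K

/-- (b) For some `s` in `[0, 1]` the overlap of `K` and `K - s y` is at least
`d (1 - s / 6) ^ (d / 2) |K|` for all `y ∈ K` outside a set of volume at most `|K| / d ^ 3`. -/
def Overlap {d : ℕ} (K : Set (E d)) : Prop :=
  ∃ s : ℝ, 0 ≤ s ∧ s ≤ 1 ∧
    volume.real {y | y ∈ K ∧ overlap K (s • y) < d * √((1 - s / 6) ^ d) * volume.real K} *
      (d : ℝ) ^ 3 ≤ volume.real K

/-- (c) `K = -K` and for some `t` in `[4 log d / d, 1 / 2]` the norm with unit ball `K` of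
`X + t Y` exceeds `1 + t / 2 - 2 log d / d` with probability at most `1 / (2 d ^ 2)`. -/
def SymNorm {d : ℕ} (K : Set (E d)) : Prop :=
  (∀ x ∈ K, -x ∈ K) ∧ ∃ t : ℝ, 4 * Real.log d ≤ t * d ∧ t ≤ 1 / 2 ∧
    exits K t (1 + t / 2 - 2 * Real.log d / d) * (2 * (d : ℝ) ^ 2) ≤ volume.real K ^ 2

/-- (d) The probability of `X + Y / d ∉ K` is at most `1 / (1600 (log d) ^ 2)`. -/
def Mean {d : ℕ} (K : Set (E d)) : Prop :=
  1600 * Real.log d ^ 2 * exits K (1 / (d : ℝ)) 1 ≤ volume.real K ^ 2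

/-- (e) The second moments of `K` are at most `σ ^ 2` in all directions, and the surface area `S` of
`K` (defined as the Minkowski content) satisfies `800 (log d) ^ 2 σ S ≤ d |K|`. -/
def SmallSurface {d : ℕ} (K : Set (E d)) : Prop :=
  ∃ σ S : ℝ, 0 < σ ∧ Moments K σ ∧
    Tendsto (fun ε : ℝ => (volume.real (Metric.cthickening ε K) - volume.real K) / ε)
      (𝓝[>] 0) (𝓝 S) ∧
    800 * Real.log d ^ 2 * (σ * S) ≤ d * volume.real K

/-- (f) In every direction the support function of `K` is at least `2500 log d` times the root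
of the second moment of `K` in this direction. -/
def Wide {d : ℕ} (K : Set (E d)) : Prop :=
  0 ∈ interior K ∧ ∀ θ : E d, ∃ k ∈ K, 0 ≤ inner ℝ θ k ∧
    (2500 * Real.log d) ^ 2 * ∫ y in K, (inner ℝ θ y) ^ 2 ≤ volume.real K * (inner ℝ θ k) ^ 2

/-- (g) `K = -K`, `K` is invariant under the change of the signs of at most `d / 60` coordinates,
and in every direction `θ` the support function of `K` is at least `1000 log d` times the root
of the second moment of the product of `θ` with the other coordinates of the random point. -/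
def WideOff {d : ℕ} (K : Set (E d)) : Prop :=
  10 ^ 4 ≤ d ∧ (∀ x ∈ K, -x ∈ K) ∧ ∃ F : Finset (Fin d), 60 * F.card ≤ d ∧
    (∀ x ∈ K, ∀ y : E d, (∀ j, y j = if j ∈ F then -x j else x j) → y ∈ K) ∧
    ∀ θ : E d, ∃ k ∈ K, 0 ≤ inner ℝ θ k ∧
      (1000 * Real.log d) ^ 2 * ∫ y in K, (∑ j ∈ Fᶜ, θ j * y j) ^ 2 ≤
        volume.real K * (inner ℝ θ k) ^ 2

/-- `K` is symmetric with respect to the coordinate hyperplanes. -/
def Uncond {d : ℕ} (K : Set (E d)) : Prop :=
  ∀ x ∈ K, ∀ y : E d, (∀ j, |y j| = |x j|) → y ∈ K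

/-- (h) `K` is symmetric with respect to the coordinate hyperplanes and lies between the unit ball
and the ball of radius `√d / (8000 log d)`. -/
def UncondBalls {d : ℕ} (K : Set (E d)) : Prop :=
  Uncond K ∧ ∃ D : ℝ, 8000 * Real.log d * D ≤ √d ∧ Metric.closedBall 0 1 ⊆ K ∧
    K ⊆ Metric.closedBall 0 D

/-- (i) `K` is symmetric with respect to the coordinate hyperplanes and for all but at most `d / 60`
coordinates the root of the second moment is at most the maximum of the coordinate on `K` divided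
by `7 10 ^ 6 (log d) ^ 2`. -/
def UncondMoments {d : ℕ} (K : Set (E d)) : Prop :=
  10 ^ 4 ≤ d ∧ Uncond K ∧ ∃ F : Finset (Fin d), 60 * F.card ≤ d ∧ ∀ i, i ∉ F → ∃ k ∈ K,
    (7 * 10 ^ 6 * Real.log d ^ 2) ^ 2 * ∫ y in K, (y i) ^ 2 ≤ volume.real K * (k i) ^ 2

/-- (j) Bodies of small circumradius: `K` lies in the ball of radius `R`, its second moments are at
most `σ ^ 2`, at most `|K| / 8` of its volume is outside the ball of radius `r`, at most
`|K| / d ^ 3` is in the ball of radius `ρ`, and `R ^ 2 + r ^ 2 + 8 σ R ≤ 4 ρ ^ 2`. -/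
def SmallRadius {d : ℕ} (K : Set (E d)) : Prop :=
  ∃ σ r ρ R : ℝ, 0 < σ ∧ 0 ≤ r ∧ 0 ≤ ρ ∧ 0 < R ∧ R ^ 2 + r ^ 2 + 8 * σ * R ≤ 4 * ρ ^ 2 ∧
    K ⊆ Metric.closedBall 0 R ∧ Moments K σ ∧
    8 * volume.real {y | y ∈ K ∧ r < ‖y‖} ≤ volume.real K ∧
    volume.real {y | y ∈ K ∧ ‖y‖ ≤ ρ} * (d : ℝ) ^ 3 ≤ volume.real K

/-- The average over all signs of the norm with unit ball `L` of the sum `± w_1 ± ... ± w_N`. -/
noncomputable def signedSum {d N : ℕ} (L : Set (E d)) (w : Fin N → E d) : ℝ :=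
  (∑ s : Fin N → Bool, gauge L (∑ j, (if s j then (1 : ℝ) else -1) • w j)) / 2 ^ N

/-- (k) There is a convex body `L = -L` with `L ⊆ K ⊆ D L` such that the average over all signs of
the norm with unit ball `L` of `± w_1 ± ... ± w_N` exceeds `N / 10` only for the proportion
`1 / (80 D (320 N (d D) ^ 2) ^ N)` of the `N`-tuples of points of `K`, where
`34 4 ^ N log (500 N (d D) ^ 2) ≤ N d`. -/
def SmallSums {d : ℕ} (K : Set (E d)) : Prop :=
  ∃ (N : ℕ) (D : ℝ) (L : Set (E d)), 1 ≤ N ∧ 1 ≤ D ∧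
    34 * 4 ^ N * Real.log (500 * N * (d * D) ^ 2) ≤ N * d ∧
    Convex ℝ L ∧ IsCompact L ∧ (interior L).Nonempty ∧ (∀ x ∈ L, -x ∈ L) ∧ L ⊆ K ∧ K ⊆ D • L ∧
    volume.real {w : Fin N → E d | (∀ i, w i ∈ K) ∧ 1 / 10 * (N : ℝ) < signedSum L w} *
      (80 * D * (320 * N * (d * D) ^ 2) ^ N) ≤ volume.real K ^ N

/-- The class of bodies which satisfy one of the conditions (a) - (k). -/
def Good {d : ℕ} (K : Set (E d)) : Prop :=
  SymOverlap K ∨ Overlap K ∨ SymNorm K ∨ Mean K ∨ SmallSurface K ∨ Wide K ∨ WideOff K ∨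
    UncondBalls K ∨ UncondMoments K ∨ SmallRadius K ∨ SmallSums K

/-- Let `d ≥ 400`.  If some affine image of the convex body `K` in `ℝ ^ d` satisfies one of the
conditions (a) - (k), then `K` is covered by at most `2 ^ d` translates of its interior. -/
theorem result (d : ℕ) (hd : 400 ≤ d) (K : Set (E d)) (hK : Convex ℝ K) (hc : IsCompact K)
    (hi : (interior K).Nonempty)
    (h : ∃ (A : E d ≃L[ℝ] E d) (v : E d), Good ((fun x => v + A x) '' K)) :
    ∃ T : Finset (E d), T.card ≤ 2 ^ d ∧ K ⊆ ⋃ t ∈ T, (fun x => t + x) '' interior K := by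
  obtain ⟨A, v, h⟩ := h
  have key : Pool.Agent.Ovl.Cov ((fun x => v + A x) '' K) (2 ^ d) := by
    obtain ⟨hK', hc', hi'⟩ := Pool.Agent.Ovl.image_body A v hK hc hi
    revert h hK' hc' hi'
    generalize (fun x => v + A x) '' K = M
    intro h hK hc hi
    rcases h with h | h | h | h | h | h | h | h | h | h | h
    · obtain ⟨hs, s, h0, h1, h2⟩ := h
      exact Pool.Agent.Ovl.t_SYM4 d s M hd h0 h1 ⟨hc, hK, hi, hs⟩ h2
    · obtain ⟨s, h0, h1, h2⟩ := h
      exact Pool.Agent.Ovl.t_POW4 d s M hd h0 h1 hK hc hi h2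
    · obtain ⟨hs, t, h0, h1, h2⟩ := h
      exact Pool.Agent.Ovl.t_NRM d t M hd h0 h1 ⟨hc, hK, hi, hs⟩ h2
    · refine Pool.Agent.Ovl.t_POW2 d M (by omega) hK hc hi ?_
      unfold Mean exits at h
      rw [one_smul] at h
      exact h
    · obtain ⟨σ, S, h0, h1, h2, h3⟩ := h
      exact Pool.Agent.Ovl.surf (by omega) h0 hK hc hi h1 h2 h3
    · obtain ⟨h0, h1⟩ := h
      exact Pool.Agent.Ovl.t_WID2 d M hd hK hc h0 h1
    · obtain ⟨h0, hs, F, h1, h2, h3⟩ := h
      refine Pool.Agent.Ovl.t_BLK d F M h0 h1 ⟨hc, hK, hi, hs⟩ (fun x hx => h2 x hx _ ?_) ?_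
      · intro j
        simp [Pool.Agent.Ovl.mix]
      · intro θ
        obtain ⟨k, hk, hk0, hk1⟩ := h3 θ
        refine ⟨k, hk, hk0, ?_⟩
        have e : ∀ y : E d, inner ℝ θ (Pool.Agent.Ovl.mix F 0 y) = ∑ j ∈ Fᶜ, θ j * y j := by
          intro y
          exact Pool.Agent.Ovl.inner_mix F θ y
        simp only [e]
        exact hk1
    · obtain ⟨hu, D, h1, h2, h3⟩ := h
      exact Pool.Agent.Ovl.t_UNC4 d D M hd hK hc hu h2 h3 h1
    · obtain ⟨h0, hu, F, h1, h2⟩ := h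
      exact Pool.Agent.Ovl.t_UNC5 d M F h0 hK hc hi hu h1 h2
    · obtain ⟨σ, r, ρ, R, h0, h1, h2, h3, h4, h5, h6, h7, h8⟩ := h
      exact Pool.Agent.Ovl.t_RAD2 d σ r ρ R M hd h0 h1 h2 h3 h4 hK hc hi h5 h6 h7 h8
    · obtain ⟨N, D, L, h0, h1, h2, h3, h4, h5, h6, h7, h8, h9⟩ := h
      exact Pool.Agent.Ovl.t_SGN d N D M L hd h0 h1 h2 hK hc ⟨h4, h3, h5, h6⟩ h7 h8 h9
  obtain ⟨T, hT, hT2⟩ := Pool.Agent.Ovl.cov_image A v key
  exact ⟨T, by exact_mod_cast hT, hT2⟩

end Pool.Agent.Variants.MP_eba1ef_gt.RandomTranslates
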