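import Mathlib
import Pool.Agent.Lib.HadwigerRotLinear

/-!
# Hadwiger's covering bound for three-dimensional convex bodies with a rotational symmetry of order
at least three
-/

set_option autoImplicit false

open Module Set

namespace Pool.Agent.Results.MP_eba1ef_gt.Rotational3D

/-- `c(K) ≤ N`: the set `K` is covered by at most `N` translates of its interior. -/
def CoveredBy {E : Type*} [NormedAddCommGroup E] (K : Set E) (N : ℕ) : Prop :=
  ∃ T : Finset E, T.card ≤ N ∧ K ⊆ ⋃ t ∈ T, (fun x => t + x) '' interior K

/- `E` is a Euclidean space: a real inner product space of finite dimension. -/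
variable {E : Type*} [NormedAddCommGroup E] [InnerProductSpace ℝ E] [FiniteDimensional ℝ E]

/-- Let `K` be a convex body in a 3-dimensional Euclidean space which is mapped onto itself by an
affine bijection `g` such that either `g` preserves the orientation and `g ^ 2` is not the
identity, or `g ^ 4` is not the identity.  Then `c(K) ≤ 8`. -/
theorem result (hd : finrank ℝ E = 3) (K : Set E) (hK : Convex ℝ K) (hc : IsCompact K)
    (hne : (interior K).Nonempty) (g : E ≃ᵃ[ℝ] E) (hg : g '' K = K)
    (h : (0 < LinearMap.det (g.linear : E →ₗ[ℝ] E) ∧ ∃ x, g (g x) ≠ x) ∨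
      ∃ x, g (g (g (g x))) ≠ x) :
    CoveredBy K 8 := by
  rcases h with ⟨hdet, h2⟩ | h4
  · exact Pool.Agent.Lib.HadwigerRot.cover_of_symmetry hd hK hc hne g hg hdet h2
  · exact Pool.Agent.Lib.HadwigerRot.cover_of_fourth hd hK hc hne g hg h4

end Pool.Agent.Results.MP_eba1ef_gt.Rotational3D
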